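import Mathlib

set_option autoImplicit false

open scoped Manifold ContDiff Topology
open Set Filter

namespace Pool.Agent.TH698.BL

section local_defs

variable {E : Type} [NormedAddCommGroup E] [NormedSpace ℂ E]
  {H : Type} [TopologicalSpace H] (I : ModelWithCorners ℂ E H)
  {M : Type} [TopologicalSpace M] [ChartedSpace H M]

/-- The Jacobian matrix at `y` of the change from the coordinates of the preferred chart at `x` to
the coordinates of the preferred chart at `y`. -/
noncomputable def jac (x y : M) : E →L[ℂ] E :=
  fderiv ℂ (extChartAt I y ∘ (extChartAt I x).symm) (extChartAt I x y)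

/-- Its determinant. -/
noncomputable def jdet (x y : M) : ℂ := LinearMap.det (jac I x y : E →ₗ[ℂ] E)

/-- `c` is a holomorphic section of the `l`-th power of the canonical bundle: the section is
`c y (dz_y)^l` at the point `y`, where `dz_y` is the coordinate volume form of the preferred chart
at `y`; in the coordinates of the preferred chart at `x` it is `c y (jdet x y)^l (dz_x)^l`, and these
coefficients are holomorphic. -/
def IsSection (l : ℕ) (c : M → ℂ) : Prop :=
  ∀ x : M, DifferentiableOn ℂ
    (fun z => c ((extChartAt I x).symm z) * jdet I x ((extChartAt I x).symm z) ^ l)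
    (extChartAt I x).target

variable (M) in
/-- The stable base locus of the canonical bundle: the common zeros of all sections of all its
positive powers. -/
def Base : Set M := {x | ∀ l : ℕ, 1 ≤ l → ∀ c : M → ℂ, IsSection I l c → c x = 0}

variable (M) in
/-- The canonical bundle is semiample: a positive power is globally generated. -/
def Semiample : Prop := ∃ l : ℕ, 1 ≤ l ∧ ∀ x : M, ∃ c : M → ℂ, IsSection I l c ∧ c x ≠ 0

/-- Four times the Levi form of `u` at `z` in the direction `v`: for `u` of class `C^2` it is
`4 ∑ u_{j k̄} v_j v̄_k`. -/
noncomputable def levi (u : E → ℝ) (z v : E) : ℝ :=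
  iteratedDeriv 2 (fun t : ℝ => u (z + (t : ℂ) • v)) 0
    + iteratedDeriv 2 (fun t : ℝ => u (z + ((t : ℂ) * Complex.I) • v)) 0

/-- `h x v`, the square of the length of the tangent vector `v` at `x` (in the coordinates of the
preferred chart at `x`), is a Kaehler metric: it is positive, and locally the Levi form of a smooth
potential. -/
def IsKahlerMetric (h : M → E → ℝ) : Prop :=
  (∀ x v, v ≠ 0 → 0 < h x v) ∧
    ∀ x : M, ∃ u : E → ℝ, (∀ᶠ z in 𝓝 (extChartAt I x x), ContDiffAt ℝ ∞ u z) ∧
      ∀ᶠ y in 𝓝 x, ∀ v, h y (jac I x y v) = levi u (extChartAt I x y) v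

/-- The logarithm, in the coordinates of the preferred chart at `x`, of the volume density which at
each point `y` is `g y` times that of the coordinates of the preferred chart at `y`. -/
noncomputable def logDensity (g : M → ℝ) (x : M) (z : E) : ℝ :=
  Real.log (g ((extChartAt I x).symm z) * ‖jdet I x ((extChartAt I x).symm z)‖ ^ 2)

/-- `g` is a smooth positive volume density, that is, the inverse of a smooth Hermitian metric on
the canonical bundle. -/
def IsDensity (g : M → ℝ) : Prop :=
  (∀ x, 0 < g x) ∧ ∀ x : M, ∀ᶠ z in 𝓝 (extChartAt I x x), ContDiffAt ℝ ∞ (logDensity I g x) z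

variable (M) in
/-- `M` is Kaehler, and its canonical bundle is nef: for each `e > 0` it has a smooth Hermitian
metric whose curvature is at least `-e` times the Kaehler form. -/
def NefKahler : Prop :=
  ∃ h : M → E → ℝ, IsKahlerMetric I h ∧ ∀ e : ℝ, 0 < e → ∃ g : M → ℝ, IsDensity I g ∧
    ∀ x v, -e * h x v ≤ levi (logDensity I g x) (extChartAt I x x) v

end local_defs

/-- A compact connected complex manifold (without boundary). -/
structure CompactManifold where
  E : Type
  H : Type
  M : Type
  [e1 : NormedAddCommGroup E]
  [e2 : NormedSpace ℂ E]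
  [e3 : FiniteDimensional ℂ E]
  [h1 : TopologicalSpace H]
  I : ModelWithCorners ℂ E H
  [bd : I.Boundaryless]
  [m1 : TopologicalSpace M]
  [m2 : ChartedSpace H M]
  [m3 : IsManifold I ω M]
  [m4 : CompactSpace M]
  [m5 : T2Space M]
  [m6 : ConnectedSpace M]

attribute [instance] CompactManifold.e1 CompactManifold.e2 CompactManifold.e3 CompactManifold.h1
  CompactManifold.bd CompactManifold.m1 CompactManifold.m2 CompactManifold.m3 CompactManifold.m4
  CompactManifold.m5 CompactManifold.m6

/-- The complex dimension. -/
noncomputable def CompactManifold.dim (X : CompactManifold) : ℕ := Module.finrank ℂ X.E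

end Pool.Agent.TH698.BL
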