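import Pool.Agent.TH698.BL.Nef

set_option autoImplicit false

open scoped Manifold ContDiff Topology
open Set Filter

namespace Pool.Agent.TH698.BL

section

variable {E : Type} [NormedAddCommGroup E] [NormedSpace ℂ E]
  {H : Type} [TopologicalSpace H] (I : ModelWithCorners ℂ E H)
  (M : Type) [TopologicalSpace M] [ChartedSpace H M]

/-- A holomorphic line bundle on `M`. Near each point `x` there is a holomorphic frame `e_x`, each
fibre has a basis vector `b_y`, and `u x y` is the number with `b_y = u x y • e_x y`. Near `y` (for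
`y` near `x`) the quotient `e_y / e_x = (u x ·) / (u y ·)` of the frames is holomorphic and has no
zero. -/
structure LineBundle where
  u : M → M → ℂ
  frame : ∀ x : M, ∀ᶠ y in 𝓝 x, u x y ≠ 0 ∧ ∀ᶠ z in 𝓝 (extChartAt I y y),
    DifferentiableAt ℂ
      (fun z => u x ((extChartAt I y).symm z) / u y ((extChartAt I y).symm z)) z

variable {I M}

/-- `s` is a holomorphic section of the `m`-th power of `L`: its value at `y` is `s y (b_y)^m`,
and its coefficient `s (u x ·)^m` with respect to the frame `e_x` is holomorphic near `x`. -/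
def IsSec (L : LineBundle I M) (m : ℕ) (s : M → ℂ) : Prop :=
  ∀ x : M, ∀ᶠ z in 𝓝 (extChartAt I x x), DifferentiableAt ℂ
    (fun z => s ((extChartAt I x).symm z) * L.u x ((extChartAt I x).symm z) ^ m) z

/-- The stable base locus. -/
def BaseOf (L : LineBundle I M) : Set M :=
  {x | ∀ m : ℕ, 1 ≤ m → ∀ s : M → ℂ, IsSec L m s → s x = 0}

/-- A positive power of `L` is globally generated. -/
def IsSemiample (L : LineBundle I M) : Prop :=
  ∃ m : ℕ, 1 ≤ m ∧ ∀ x : M, ∃ s : M → ℂ, IsSec L m s ∧ s x ≠ 0

/-- The local weight near `x` of the metric with `‖b_y‖ ^ 2 = 1 / g y`: it is `-log ‖e_x‖ ^ 2`. -/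
noncomputable def weight (L : LineBundle I M) (g : M → ℝ) (x : M) (z : E) : ℝ :=
  Real.log (g ((extChartAt I x).symm z) * ‖L.u x ((extChartAt I x).symm z)‖ ^ 2)

/-- `g` is a smooth Hermitian metric on `L` (`‖b_y‖ ^ 2 = 1 / g y`). -/
def IsMetric (L : LineBundle I M) (g : M → ℝ) : Prop :=
  (∀ x, 0 < g x) ∧ ∀ x : M, ∀ᶠ z in 𝓝 (extChartAt I x x), ContDiffAt ℝ ∞ (weight L g x) z

/-- The curvature of the metric at `x` in the direction `v` (four times `∂∂̄` of the weight). -/
noncomputable def curv (L : LineBundle I M) (g : M → ℝ) (x : M) (v : E) : ℝ :=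
  levi (weight L g x) (extChartAt I x x) v

/-- `g` is a metric of positive curvature on `A`; so `A` is ample. -/
def IsPositive (A : LineBundle I M) (g : M → ℝ) : Prop :=
  IsMetric A g ∧ ∀ x v, v ≠ 0 → 0 < curv A g x v

variable (I M) in
/-- `M` has a positive line bundle. For compact `M` this says that `M` is projective (Kodaira). -/
def IsProjective : Prop := ∃ (A : LineBundle I M) (g : M → ℝ), IsPositive A g

/-- `M` is projective and `L` is nef: for each `e > 0` it has a smooth metric with curvature at
least `-e` times that of a positive line bundle. -/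
def IsNef (L : LineBundle I M) : Prop :=
  ∃ (A : LineBundle I M) (g : M → ℝ), IsPositive A g ∧ ∀ e : ℝ, 0 < e →
    ∃ g' : M → ℝ, IsMetric L g' ∧ ∀ x v, -e * curv A g x v ≤ curv L g' x v

variable (I M) in
/-- The canonical bundle is trivial: it has a section without zeros. -/
def TrivialCanonical : Prop := ∃ c : M → ℂ, IsSection I 1 c ∧ ∀ x, c x ≠ 0

variable (I) in
/-- `a` is a holomorphic `1`-form: `a y` is its value at `y` in the coordinates of the preferred
chart at `y`. -/
def IsForm (a : M → E →L[ℂ] ℂ) : Prop :=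
  ∀ x : M, DifferentiableOn ℂ
    (fun z => (a ((extChartAt I x).symm z)).comp (jac I x ((extChartAt I x).symm z)))
    (extChartAt I x).target

variable (I M) in
/-- There is no holomorphic `1`-form except zero. For projective `M` this says `H^1(M, O) = 0`
(Hodge). -/
def NoForms : Prop := ∀ a : M → E →L[ℂ] ℂ, IsForm I a → ∀ x, a x = 0

end

end Pool.Agent.TH698.BL
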