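import Pool.Agent.TH698.BL.LineDefs

set_option autoImplicit false

open scoped Manifold ContDiff Topology
open Set Filter

namespace Pool.Agent.TH698.BL

section one

variable {E : Type} [NormedAddCommGroup E] [NormedSpace ℂ E] [FiniteDimensional ℂ E]
  {H : Type} [TopologicalSpace H] {I : ModelWithCorners ℂ E H} [I.Boundaryless]
  {M : Type} [TopologicalSpace M] [ChartedSpace H M]

theorem LineBundle.self_ne (L : LineBundle I M) (x : M) : L.u x x ≠ 0 :=
  (L.frame x).self_of_nhds.1

theorem sec_near (L : LineBundle I M) {m : ℕ} {s : M → ℂ} (hs : IsSec L m s) {x : M}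
    (hx : s x ≠ 0) : ∀ᶠ y in 𝓝 x, s y ≠ 0 := by
  have h1 := (hs x).self_of_nhds.continuousAt
  have h2 : ContinuousAt (fun y => (fun z => s ((extChartAt I x).symm z)
      * L.u x ((extChartAt I x).symm z) ^ m) (extChartAt I x y)) x :=
    ContinuousAt.comp h1 (continuousAt_extChartAt x)
  have h3 : (fun y => (fun z => s ((extChartAt I x).symm z)
      * L.u x ((extChartAt I x).symm z) ^ m) (extChartAt I x y)) x ≠ 0 := by
    simp only [(extChartAt I x).left_inv (mem_extChartAt_source x)]
    exact mul_ne_zero hx (pow_ne_zero m (L.self_ne x))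
  filter_upwards [h2.eventually_ne h3, extChartAt_source_mem_nhds (I := I) x] with y hy hs h0
  apply hy
  simp only [(extChartAt I x).left_inv hs, h0, zero_mul]

theorem sec_pow (L : LineBundle I M) {m : ℕ} {s : M → ℂ} (hs : IsSec L m s) (k : ℕ) :
    IsSec L (m * k) (fun x => s x ^ k) := by
  intro x
  filter_upwards [hs x] with z hz
  have h := hz.pow k
  refine h.congr_of_eventuallyEq (Eventually.of_forall fun w => ?_)
  simp only [Pi.pow_apply, mul_pow, pow_mul]

theorem isSemiample_of_base [CompactSpace M] (L : LineBundle I M) (h : BaseOf L = ∅) :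
    IsSemiample L := by
  have h1 : ∀ x : M, ∃ l : ℕ, 1 ≤ l ∧ ∃ c : M → ℂ, IsSec L l c ∧ c x ≠ 0 := by
    intro x
    have hx : x ∉ BaseOf L := by rw [h]; exact notMem_empty x
    simp only [BaseOf, mem_ofPred_eq, not_forall] at hx
    obtain ⟨l, hl, c, hc, h0⟩ := hx
    exact ⟨l, hl, c, hc, h0⟩
  choose l hl c hc h0 using h1
  obtain ⟨t, ht⟩ := CompactSpace.elim_nhds_subcover (fun x => {y | c x y ≠ 0})
    (fun x => sec_near L (hc x) (h0 x))
  refine ⟨∏ x ∈ t, l x, Finset.one_le_prod' fun x _ => hl x, fun y => ?_⟩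
  have hy : y ∈ ⋃ x ∈ t, {y | c x y ≠ 0} := by rw [ht]; trivial
  simp only [mem_iUnion] at hy
  obtain ⟨x, hx, hy⟩ := hy
  obtain ⟨m, hm⟩ := Finset.dvd_prod_of_mem l hx
  refine ⟨fun z => c x z ^ m, ?_, pow_ne_zero m hy⟩
  rw [hm]
  exact sec_pow L (hc x) m

end one

section two

variable {E : Type} [NormedAddCommGroup E] [NormedSpace ℂ E] [FiniteDimensional ℂ E]
  {H : Type} [TopologicalSpace H] {I : ModelWithCorners ℂ E H} [I.Boundaryless]
  {M : Type} [TopologicalSpace M] [ChartedSpace H M] [IsManifold I ω M]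
  {E' : Type} [NormedAddCommGroup E'] [NormedSpace ℂ E'] [FiniteDimensional ℂ E']
  {H' : Type} [TopologicalSpace H'] {I' : ModelWithCorners ℂ E' H'} [I'.Boundaryless]
  {M' : Type} [TopologicalSpace M'] [ChartedSpace H' M'] [IsManifold I' ω M']

theorem ext_eq (x x' : M) (y y' : M') : extChartAt (I.prod I') (x, y) (x', y')
    = (extChartAt I x x', extChartAt I' y y') := by
  rw [extChartAt_prod]
  rfl

theorem symm_eq (x : M) (y : M') (p : E × E') : (extChartAt (I.prod I') (x, y)).symm p
    = ((extChartAt I x).symm p.1, (extChartAt I' y).symm p.2) := by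
  rw [extChartAt_prod]
  rfl

/-- The exterior tensor product. -/
def box (L : LineBundle I M) (L' : LineBundle I' M') : LineBundle (I.prod I') (M × M') where
  u p q := L.u p.1 q.1 * L'.u p.2 q.2
  frame := by
    rintro ⟨x, y⟩
    filter_upwards [(L.frame x).prod_nhds (L'.frame y)] with q hq
    obtain ⟨q1, q2⟩ := q
    obtain ⟨⟨a1, a2⟩, ⟨b1, b2⟩⟩ := hq
    refine ⟨mul_ne_zero a1 b1, ?_⟩
    rw [ext_eq]
    filter_upwards [a2.prod_nhds b2] with p hp
    have h1 := hp.1.comp p differentiableAt_fst
    have h2 := hp.2.comp p differentiableAt_snd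
    have h3 := h1.mul h2
    refine h3.congr_of_eventuallyEq (Eventually.of_forall fun w => ?_)
    simp only [symm_eq, Function.comp_apply, Pi.mul_apply]
    rw [mul_div_mul_comm]

theorem restrict_sec (L : LineBundle I M) (L' : LineBundle I' M') {m : ℕ} {s : M × M' → ℂ}
    (hs : IsSec (box L L') m s) (y : M') : IsSec L m (fun x => s (x, y)) := by
  intro x
  have h := hs (x, y)
  rw [ext_eq] at h
  have hc : Tendsto (fun z : E => (z, extChartAt I' y y)) (𝓝 (extChartAt I x x))
      (𝓝 (extChartAt I x x, extChartAt I' y y)) := by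
    have : ContinuousAt (fun z : E => (z, extChartAt I' y y)) (extChartAt I x x) := by fun_prop
    exact this
  filter_upwards [hc.eventually h] with z hz
  have h1 : DifferentiableAt ℂ (fun z : E => (z, extChartAt I' y y)) z :=
    differentiableAt_id.prodMk (differentiableAt_const _)
  have h2 := (hz.comp z h1).mul_const ((L'.u y y ^ m)⁻¹)
  refine h2.congr_of_eventuallyEq (Eventually.of_forall fun w => ?_)
  simp only [Function.comp_apply, symm_eq, (extChartAt I' y).left_inv (mem_extChartAt_source y)]
  have h3 : L'.u y y ^ m ≠ 0 := pow_ne_zero m (L'.self_ne y)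
  change _ = s ((extChartAt I x).symm w, y)
    * (L.u x ((extChartAt I x).symm w) * L'.u y y) ^ m * (L'.u y y ^ m)⁻¹
  rw [mul_pow]
  field_simp

theorem base_box (L : LineBundle I M) (L' : LineBundle I' M') {x : M} (hx : x ∈ BaseOf L)
    (y : M') : (x, y) ∈ BaseOf (box L L') := by
  intro l hl c hc
  exact hx l hl _ (restrict_sec L L' hc y)

theorem weight_box (L : LineBundle I M) (L' : LineBundle I' M') {g : M → ℝ} {g' : M' → ℝ}
    (hg : ∀ x, 0 < g x) (hg' : ∀ x, 0 < g' x) (x : M) (y : M') :
    ∀ᶠ p in 𝓝 (extChartAt (I.prod I') (x, y) (x, y)),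
      weight (box L L') (fun q : M × M' => g q.1 * g' q.2) (x, y) p
        = weight L g x p.1 + weight L' g' y p.2 := by
  rw [ext_eq]
  have c1 : ContinuousAt (extChartAt I x).symm (extChartAt I x x) := continuousAt_extChartAt_symm x
  have c2 : ContinuousAt (extChartAt I' y).symm (extChartAt I' y y) :=
    continuousAt_extChartAt_symm y
  have t1 : ∀ᶠ z in 𝓝 (extChartAt I x x), L.u x ((extChartAt I x).symm z) ≠ 0 := by
    apply c1.eventually (p := fun w => L.u x w ≠ 0)
    rw [(extChartAt I x).left_inv (mem_extChartAt_source x)]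
    filter_upwards [L.frame x] with w hw using hw.1
  have t2 : ∀ᶠ z in 𝓝 (extChartAt I' y y), L'.u y ((extChartAt I' y).symm z) ≠ 0 := by
    apply c2.eventually (p := fun w => L'.u y w ≠ 0)
    rw [(extChartAt I' y).left_inv (mem_extChartAt_source y)]
    filter_upwards [L'.frame y] with w hw using hw.1
  filter_upwards [t1.prod_nhds t2] with p hp
  unfold weight
  rw [symm_eq]
  change Real.log (g _ * g' _ * ‖L.u x _ * L'.u y _‖ ^ 2) = _
  rw [norm_mul, mul_pow, ← Real.log_mul]
  · congr 1
    ring
  · exact mul_ne_zero (hg _).ne' (pow_ne_zero 2 (norm_ne_zero_iff.2 hp.1))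
  · exact mul_ne_zero (hg' _).ne' (pow_ne_zero 2 (norm_ne_zero_iff.2 hp.2))

theorem metric_box (L : LineBundle I M) (L' : LineBundle I' M') {g : M → ℝ} {g' : M' → ℝ}
    (hg : IsMetric L g) (hg' : IsMetric L' g') :
    IsMetric (box L L') (fun q : M × M' => g q.1 * g' q.2) := by
  refine ⟨fun q => mul_pos (hg.1 q.1) (hg'.1 q.2), ?_⟩
  rintro ⟨x, y⟩
  have a1 := (weight_box L L' hg.1 hg'.1 x y).eventually_nhds
  have a2 := (hg.2 x).prod_nhds (hg'.2 y)
  rw [← ext_eq (I := I) (I' := I')] at a2
  filter_upwards [a1, a2] with p hp1 hp2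
  refine ContDiffAt.congr_of_eventuallyEq ?_ hp1
  exact (hp2.1.comp p contDiffAt_fst).add (hp2.2.comp p contDiffAt_snd)

theorem curv_box (L : LineBundle I M) (L' : LineBundle I' M') {g : M → ℝ} {g' : M' → ℝ}
    (hg : IsMetric L g) (hg' : IsMetric L' g') (x : M) (y : M') (v : E) (w : E') :
    curv (box L L') (fun q : M × M' => g q.1 * g' q.2) (x, y) (v, w)
      = curv L g x v + curv L' g' y w := by
  unfold curv
  rw [levi_congr (weight_box L L' hg.1 hg'.1 x y), ext_eq,
    levi_add (hg.2 x).self_of_nhds (hg'.2 y).self_of_nhds]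

theorem curv_zero (L : LineBundle I M) (g : M → ℝ) (x : M) : curv L g x 0 = 0 := levi_zero _ _

theorem positive_box (L : LineBundle I M) (L' : LineBundle I' M') {g : M → ℝ} {g' : M' → ℝ}
    (hg : IsPositive L g) (hg' : IsPositive L' g') :
    IsPositive (box L L') (fun q : M × M' => g q.1 * g' q.2) := by
  refine ⟨metric_box L L' hg.1 hg'.1, ?_⟩
  rintro ⟨x, y⟩ ⟨v, w⟩ hvw
  rw [curv_box L L' hg.1 hg'.1]
  by_cases hv : v = 0
  · subst hv
    have hw : w ≠ 0 := fun h0 => hvw (by rw [h0]; rfl)
    rw [curv_zero, zero_add]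
    exact hg'.2 y w hw
  · by_cases hw : w = 0
    · subst hw
      rw [curv_zero, add_zero]
      exact hg.2 x v hv
    · exact add_pos (hg.2 x v hv) (hg'.2 y w hw)

theorem nef_box (L : LineBundle I M) (L' : LineBundle I' M') (h : IsNef L) (h' : IsNef L') :
    IsNef (box L L') := by
  obtain ⟨A, g, hA, hn⟩ := h
  obtain ⟨A', g', hA', hn'⟩ := h'
  refine ⟨box A A', _, positive_box A A' hA hA', fun e he => ?_⟩
  obtain ⟨k, hk, hk2⟩ := hn e he
  obtain ⟨k', hk', hk2'⟩ := hn' e he
  refine ⟨_, metric_box L L' hk hk', ?_⟩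
  rintro ⟨x, y⟩ ⟨v, w⟩
  rw [curv_box A A' hA.1 hA'.1, curv_box L L' hk hk']
  have b1 := hk2 x v
  have b2 := hk2' y w
  linarith

theorem projective_prod (h : IsProjective I M) (h' : IsProjective I' M') :
    IsProjective (I.prod I') (M × M') := by
  obtain ⟨A, g, hA⟩ := h
  obtain ⟨A', g', hA'⟩ := h'
  exact ⟨box A A', _, positive_box A A' hA hA'⟩

theorem trivial_prod (h : TrivialCanonical I M) (h' : TrivialCanonical I' M') :
    TrivialCanonical (I.prod I') (M × M') := by
  obtain ⟨c, hc, h0⟩ := h
  obtain ⟨c', hc', h0'⟩ := h'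
  refine ⟨fun q => c q.1 * c' q.2, ?_, fun q => mul_ne_zero (h0 _) (h0' _)⟩
  rintro ⟨x, y⟩
  have m1 : MapsTo Prod.fst (extChartAt (I.prod I') (x, y)).target (extChartAt I x).target := by
    intro p hp
    rw [extChartAt_prod] at hp
    exact hp.1
  have m2 : MapsTo Prod.snd (extChartAt (I.prod I') (x, y)).target (extChartAt I' y).target := by
    intro p hp
    rw [extChartAt_prod] at hp
    exact hp.2
  have h1 := (hc x).comp differentiable_fst.differentiableOn m1
  have h2 := (hc' y).comp differentiable_snd.differentiableOn m2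
  refine (h1.mul h2).congr ?_
  intro p hp
  simp only [symm_eq, Function.comp_apply, Pi.mul_apply]
  rw [jdet_prod I I' ((extChartAt I x).map_target (m1 hp)) ((extChartAt I' y).map_target (m2 hp))]
  ring

theorem noForms_prod (h : NoForms I M) (h' : NoForms I' M') : NoForms (I.prod I') (M × M') := by
  intro a ha
  rintro ⟨x, y⟩
  have h1 : ∀ y : M', ∀ x : M, (a (x, y)).comp (ContinuousLinearMap.inl ℂ E E') = 0 := by
    intro y
    refine h (fun x => (a (x, y)).comp (ContinuousLinearMap.inl ℂ E E')) ?_
    intro x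
    have hm : MapsTo (fun z : E => (z, extChartAt I' y y)) (extChartAt I x).target
        (extChartAt (I.prod I') (x, y)).target := by
      intro z hz
      rw [extChartAt_prod]
      exact ⟨hz, mem_extChartAt_target y⟩
    have hg : DifferentiableOn ℂ (fun z : E => (z, extChartAt I' y y)) (extChartAt I x).target :=
      (differentiable_id.prodMk (differentiable_const _)).differentiableOn
    have h2 := ((ha (x, y)).comp hg hm).clm_comp
      (differentiableOn_const (c := ContinuousLinearMap.inl ℂ E E'))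
    refine h2.congr ?_
    intro z hz
    simp only [Function.comp_apply, symm_eq,
      (extChartAt I' y).left_inv (mem_extChartAt_source y)]
    rw [jac_prod I I' ((extChartAt I x).map_target hz) (mem_extChartAt_source y), jac_self]
    ext v
    simp
  have h2 : ∀ x : M, ∀ y : M', (a (x, y)).comp (ContinuousLinearMap.inr ℂ E E') = 0 := by
    intro x
    refine h' (fun y => (a (x, y)).comp (ContinuousLinearMap.inr ℂ E E')) ?_
    intro y
    have hm : MapsTo (fun z : E' => (extChartAt I x x, z)) (extChartAt I' y).target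
        (extChartAt (I.prod I') (x, y)).target := by
      intro z hz
      rw [extChartAt_prod]
      exact ⟨mem_extChartAt_target x, hz⟩
    have hg : DifferentiableOn ℂ (fun z : E' => (extChartAt I x x, z)) (extChartAt I' y).target :=
      ((differentiable_const _).prodMk differentiable_id).differentiableOn
    have h2 := ((ha (x, y)).comp hg hm).clm_comp
      (differentiableOn_const (c := ContinuousLinearMap.inr ℂ E E'))
    refine h2.congr ?_
    intro z hz
    simp only [Function.comp_apply, symm_eq,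
      (extChartAt I x).left_inv (mem_extChartAt_source x)]
    rw [jac_prod I I' (mem_extChartAt_source x) ((extChartAt I' y).map_target hz), jac_self]
    ext v
    simp
  ext v
  · have := DFunLike.congr_fun (h1 y x) v
    simpa using this
  · have := DFunLike.congr_fun (h2 x y) v
    simpa using this

end two

end Pool.Agent.TH698.BL
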