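import Pool.Agent.TH698.BL.Prod

set_option autoImplicit false

open scoped Manifold ContDiff Topology
open Set Filter

namespace Pool.Agent.TH698.BL

section one

variable {E : Type} [NormedAddCommGroup E] [NormedSpace ℂ E]

theorem levi_congr {u v : E → ℝ} {z : E} (h : u =ᶠ[𝓝 z] v) (w : E) : levi u z w = levi v z w := by
  unfold levi
  have h1 : Tendsto (fun t : ℝ => z + (t : ℂ) • w) (𝓝 0) (𝓝 z) := by
    have : ContinuousAt (fun t : ℝ => z + (t : ℂ) • w) 0 := by fun_prop
    simpa [ContinuousAt] using this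
  have h2 : Tendsto (fun t : ℝ => z + ((t : ℂ) * Complex.I) • w) (𝓝 0) (𝓝 z) := by
    have : ContinuousAt (fun t : ℝ => z + ((t : ℂ) * Complex.I) • w) 0 := by fun_prop
    simpa [ContinuousAt] using this
  have k1 : (fun t : ℝ => u (z + (t : ℂ) • w)) =ᶠ[𝓝 0] (fun t : ℝ => v (z + (t : ℂ) • w)) :=
    h.comp_tendsto h1
  have k2 : (fun t : ℝ => u (z + ((t : ℂ) * Complex.I) • w))
      =ᶠ[𝓝 0] (fun t : ℝ => v (z + ((t : ℂ) * Complex.I) • w)) := h.comp_tendsto h2
  rw [Filter.EventuallyEq.iteratedDeriv_eq 2 k1, Filter.EventuallyEq.iteratedDeriv_eq 2 k2]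

theorem levi_zero (u : E → ℝ) (z : E) : levi u z 0 = 0 := by
  unfold levi
  simp [iteratedDeriv_const]

theorem line_smooth {u : E → ℝ} {z : E} (h : ContDiffAt ℝ ∞ u z) (w : E) :
    ContDiffAt ℝ (2 : ℕ) (fun t : ℝ => u (z + t • w)) 0 := by
  have h1 : ContDiffAt ℝ (2 : ℕ) (fun t : ℝ => z + t • w) 0 :=
    contDiffAt_const.add (contDiffAt_id.smul contDiffAt_const)
  have h2 : ContDiffAt ℝ (2 : ℕ) u (z + (0 : ℝ) • w) := by
    rw [zero_smul, add_zero]
    exact (contDiffAt_infty.1 h) 2
  exact ContDiffAt.comp (0 : ℝ) h2 h1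

theorem levi_eq (u : E → ℝ) (z w : E) : levi u z w
    = iteratedDeriv 2 (fun t : ℝ => u (z + t • w)) 0
      + iteratedDeriv 2 (fun t : ℝ => u (z + t • (Complex.I • w))) 0 := by
  unfold levi
  have h1 : ∀ t : ℝ, (t : ℂ) • w = t • w := fun t => Complex.coe_smul t w
  have h2 : ∀ t : ℝ, ((t : ℂ) * Complex.I) • w = t • (Complex.I • w) := fun t => by
    rw [mul_smul]
    exact Complex.coe_smul t _
  simp only [h1, h2]

end one

section two

variable {E : Type} [NormedAddCommGroup E] [NormedSpace ℂ E]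
  {E' : Type} [NormedAddCommGroup E'] [NormedSpace ℂ E']

theorem levi_add {u : E → ℝ} {v : E' → ℝ} {z : E} {w : E'} (hu : ContDiffAt ℝ ∞ u z)
    (hv : ContDiffAt ℝ ∞ v w) (a : E) (b : E') :
    levi (fun p : E × E' => u p.1 + v p.2) (z, w) (a, b) = levi u z a + levi v w b := by
  rw [levi_eq, levi_eq, levi_eq]
  have e1 : (fun t : ℝ => (fun p : E × E' => u p.1 + v p.2) ((z, w) + t • (a, b)))
      = (fun t : ℝ => u (z + t • a)) + (fun t : ℝ => v (w + t • b)) := by
    funext t
    rfl
  have e2 : (fun t : ℝ => (fun p : E × E' => u p.1 + v p.2)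
        ((z, w) + t • (Complex.I • ((a, b) : E × E'))))
      = (fun t : ℝ => u (z + t • (Complex.I • a))) + (fun t : ℝ => v (w + t • (Complex.I • b))) := by
    funext t
    rfl
  rw [e1, e2, iteratedDeriv_add (line_smooth hu a) (line_smooth hv b),
    iteratedDeriv_add (line_smooth hu _) (line_smooth hv _)]
  ring

end two

section three

variable {E : Type} [NormedAddCommGroup E] [NormedSpace ℂ E] [FiniteDimensional ℂ E]
  {H : Type} [TopologicalSpace H] (I : ModelWithCorners ℂ E H) [I.Boundaryless]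
  {M : Type} [TopologicalSpace M] [ChartedSpace H M] [IsManifold I ω M]

theorem jdet_ne_zero {x y : M} (hy : y ∈ (extChartAt I x).source) : jdet I x y ≠ 0 := by
  have h1 := (diffAt I hy).hasFDerivAt
  have h2 : DifferentiableAt ℂ (extChartAt I x ∘ (extChartAt I y).symm) (extChartAt I y y) := by
    have h := contDiffWithinAt_ext_coord_change (I := I) (n := ω) x y (y := extChartAt I y y) (by
      rw [PartialEquiv.trans_source, PartialEquiv.symm_source]
      refine ⟨mem_extChartAt_target y, ?_⟩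
      rw [mem_preimage, (extChartAt I y).left_inv (mem_extChartAt_source y)]
      exact hy)
    rw [ModelWithCorners.range_eq_univ] at h
    exact (h.contDiffAt univ_mem).differentiableAt (by simp)
  have e1 : (extChartAt I y ∘ (extChartAt I x).symm) (extChartAt I x y) = extChartAt I y y := by
    rw [Function.comp_apply, (extChartAt I x).left_inv hy]
  have h3 := h2.hasFDerivAt
  rw [← e1] at h3
  have h4 := h3.comp (extChartAt I x y) h1
  have ht : (extChartAt I x).target ∈ 𝓝 (extChartAt I x y) :=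
    (isOpen_extChartAt_target x).mem_nhds ((extChartAt I x).map_source hy)
  have hc : ContinuousAt (extChartAt I x).symm (extChartAt I x y) :=
    continuousAt_extChartAt_symm' hy
  have hs : ∀ᶠ z in 𝓝 (extChartAt I x y), (extChartAt I x).symm z ∈ (extChartAt I y).source := by
    apply hc.eventually
    rw [(extChartAt I x).left_inv hy]
    exact extChartAt_source_mem_nhds y
  have h5 : ((extChartAt I x ∘ (extChartAt I y).symm) ∘ (extChartAt I y ∘ (extChartAt I x).symm))
      =ᶠ[𝓝 (extChartAt I x y)] id := by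
    filter_upwards [ht, hs] with z hz1 hz2
    simp only [Function.comp_apply, id_eq]
    rw [(extChartAt I y).left_inv hz2, (extChartAt I x).right_inv hz1]
  have h6 := h4.congr_of_eventuallyEq h5.symm
  have h7 := h6.unique (hasFDerivAt_id _)
  intro h0
  have h8 : LinearMap.det (((fderiv ℂ (extChartAt I x ∘ (extChartAt I y).symm)
        ((extChartAt I y ∘ (extChartAt I x).symm) (extChartAt I x y)) : E →L[ℂ] E) : E →ₗ[ℂ] E)
      ∘ₗ ((jac I x y : E →L[ℂ] E) : E →ₗ[ℂ] E)) = LinearMap.det (LinearMap.id : E →ₗ[ℂ] E) :=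
    congrArg LinearMap.det (LinearMap.ext fun v => DFunLike.congr_fun h7 v)
  rw [LinearMap.det_comp, LinearMap.det_id] at h8
  have h9 : LinearMap.det ((jac I x y : E →L[ℂ] E) : E →ₗ[ℂ] E) = 0 := h0
  rw [h9, mul_zero] at h8
  exact zero_ne_one h8

theorem section_near {l : ℕ} {c : M → ℂ} (hc : IsSection I l c) {x : M} (hx : c x ≠ 0) :
    ∀ᶠ y in 𝓝 x, c y ≠ 0 := by
  have h1 := (hc x).continuousOn.continuousAt (extChartAt_target_mem_nhds (I := I) x)
  have h2 : ContinuousAt (fun y => (fun z => c ((extChartAt I x).symm z)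
      * jdet I x ((extChartAt I x).symm z) ^ l) (extChartAt I x y)) x :=
    ContinuousAt.comp h1 (continuousAt_extChartAt x)
  have h3 : (fun y => (fun z => c ((extChartAt I x).symm z)
      * jdet I x ((extChartAt I x).symm z) ^ l) (extChartAt I x y)) x ≠ 0 := by
    simp only [(extChartAt I x).left_inv (mem_extChartAt_source x), jdet_self, one_pow, mul_one]
    exact hx
  filter_upwards [h2.eventually_ne h3, extChartAt_source_mem_nhds (I := I) x] with y hy hs h0
  apply hy
  simp only [(extChartAt I x).left_inv hs, h0, zero_mul]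

theorem section_pow {l : ℕ} {c : M → ℂ} (hc : IsSection I l c) (m : ℕ) :
    IsSection I (l * m) (fun x => c x ^ m) := by
  intro x
  refine ((hc x).pow m).congr ?_
  intro z _
  simp only [Pi.pow_apply, mul_pow, pow_mul]

theorem semiample_of_base [CompactSpace M] (h : Base I M = ∅) : Semiample I M := by
  have h1 : ∀ x : M, ∃ l : ℕ, 1 ≤ l ∧ ∃ c : M → ℂ, IsSection I l c ∧ c x ≠ 0 := by
    intro x
    have hx : x ∉ Base I M := by rw [h]; exact notMem_empty x
    simp only [Base, mem_ofPred_eq, not_forall] at hx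
    obtain ⟨l, hl, c, hc, h0⟩ := hx
    exact ⟨l, hl, c, hc, h0⟩
  choose l hl c hc h0 using h1
  obtain ⟨t, ht⟩ := CompactSpace.elim_nhds_subcover (fun x => {y | c x y ≠ 0})
    (fun x => section_near I (hc x) (h0 x))
  refine ⟨∏ x ∈ t, l x, Finset.one_le_prod' fun x _ => hl x, fun y => ?_⟩
  have hy : y ∈ ⋃ x ∈ t, {y | c x y ≠ 0} := by rw [ht]; trivial
  simp only [mem_iUnion] at hy
  obtain ⟨x, hx, hy⟩ := hy
  obtain ⟨m, hm⟩ := Finset.dvd_prod_of_mem l hx
  refine ⟨fun z => c x z ^ m, ?_, pow_ne_zero m hy⟩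
  rw [hm]
  exact section_pow I (hc x) m

end three

section four

variable {E : Type} [NormedAddCommGroup E] [NormedSpace ℂ E] [FiniteDimensional ℂ E]
  {H : Type} [TopologicalSpace H] (I : ModelWithCorners ℂ E H) [I.Boundaryless]
  {M : Type} [TopologicalSpace M] [ChartedSpace H M] [IsManifold I ω M]
  {E' : Type} [NormedAddCommGroup E'] [NormedSpace ℂ E'] [FiniteDimensional ℂ E']
  {H' : Type} [TopologicalSpace H'] (I' : ModelWithCorners ℂ E' H') [I'.Boundaryless]
  {M' : Type} [TopologicalSpace M'] [ChartedSpace H' M'] [IsManifold I' ω M']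

theorem metric_zero {h : M → E → ℝ} (hh : IsKahlerMetric I h) (x : M) : h x 0 = 0 := by
  obtain ⟨u, -, h2⟩ := hh.2 x
  have h3 := h2.self_of_nhds 0
  rw [map_zero, levi_zero] at h3
  exact h3

theorem metric_prod {h : M → E → ℝ} {h' : M' → E' → ℝ} (hh : IsKahlerMetric I h)
    (hh' : IsKahlerMetric I' h') :
    IsKahlerMetric (I.prod I') (fun (x : M × M') (v : E × E') => h x.1 v.1 + h' x.2 v.2) := by
  refine ⟨?_, ?_⟩
  · rintro ⟨x, y⟩ ⟨v, w⟩ hvw
    by_cases hv : v = 0
    · subst hv
      have hw : w ≠ 0 := fun h0 => hvw (by rw [h0]; rfl)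
      simp only [metric_zero I hh, zero_add]
      exact hh'.1 y w hw
    · by_cases hw : w = 0
      · subst hw
        simp only [metric_zero I' hh', add_zero]
        exact hh.1 x v hv
      · exact add_pos (hh.1 x v hv) (hh'.1 y w hw)
  · rintro ⟨x, y⟩
    obtain ⟨u, hu1, hu2⟩ := hh.2 x
    obtain ⟨u', hu1', hu2'⟩ := hh'.2 y
    have e2 : extChartAt (I.prod I') (x, y) (x, y) = (extChartAt I x x, extChartAt I' y y) := by
      rw [extChartAt_prod]
      rfl
    refine ⟨fun p => u p.1 + u' p.2, ?_, ?_⟩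
    · rw [e2]
      filter_upwards [hu1.prod_nhds hu1'] with p hp
      exact (hp.1.comp p contDiffAt_fst).add (hp.2.comp p contDiffAt_snd)
    · have a1 := (continuousAt_extChartAt (I := I) x).eventually hu1
      have a2 := (continuousAt_extChartAt (I := I') y).eventually hu1'
      filter_upwards [(hu2.and (a1.and (extChartAt_source_mem_nhds (I := I) x))).prod_nhds
        (hu2'.and (a2.and (extChartAt_source_mem_nhds (I := I') y)))] with p hp
      rintro ⟨v, w⟩
      obtain ⟨⟨b1, b2, b3⟩, ⟨c1, c2, c3⟩⟩ := hp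
      obtain ⟨p1, p2⟩ := p
      have e3 : extChartAt (I.prod I') (x, y) (p1, p2) = (extChartAt I x p1, extChartAt I' y p2) := by
        rw [extChartAt_prod]
        rfl
      rw [jac_prod I I' b3 c3, e3, levi_add b2 c2]
      exact congrArg₂ (· + ·) (b1 v) (c1 w)

theorem logDensity_prod {g : M → ℝ} {g' : M' → ℝ} (hg : ∀ x, 0 < g x) (hg' : ∀ x, 0 < g' x)
    (x : M) (y : M') : ∀ᶠ p in 𝓝 (extChartAt (I.prod I') (x, y) (x, y)),
      logDensity (I.prod I') (fun q : M × M' => g q.1 * g' q.2) (x, y) p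
        = logDensity I g x p.1 + logDensity I' g' y p.2 := by
  have e2 : extChartAt (I.prod I') (x, y) (x, y) = (extChartAt I x x, extChartAt I' y y) := by
    rw [extChartAt_prod]
    rfl
  have t1 : ∀ᶠ z in 𝓝 (extChartAt I x x), z ∈ (extChartAt I x).target :=
    extChartAt_target_mem_nhds (I := I) x
  have t2 : ∀ᶠ z in 𝓝 (extChartAt I' y y), z ∈ (extChartAt I' y).target :=
    extChartAt_target_mem_nhds (I := I') y
  rw [e2]
  filter_upwards [t1.prod_nhds t2] with p hp
  obtain ⟨p1, p2⟩ := p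
  have e3 : (extChartAt (I.prod I') (x, y)).symm (p1, p2)
      = ((extChartAt I x).symm p1, (extChartAt I' y).symm p2) := by
    rw [extChartAt_prod]
    rfl
  have s1 := (extChartAt I x).map_target hp.1
  have s2 := (extChartAt I' y).map_target hp.2
  unfold logDensity
  rw [e3, jdet_prod I I' s1 s2, norm_mul, mul_pow, ← Real.log_mul]
  · congr 1
    ring
  · exact mul_ne_zero (hg _).ne' (pow_ne_zero 2 (norm_ne_zero_iff.2 (jdet_ne_zero I s1)))
  · exact mul_ne_zero (hg' _).ne' (pow_ne_zero 2 (norm_ne_zero_iff.2 (jdet_ne_zero I' s2)))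

theorem nef_prod (h1 : NefKahler I M) (h2 : NefKahler I' M') :
    NefKahler (I.prod I') (M × M') := by
  obtain ⟨h, hh, hn⟩ := h1
  obtain ⟨h', hh', hn'⟩ := h2
  refine ⟨_, metric_prod I I' hh hh', fun e he => ?_⟩
  obtain ⟨g, hg, hgl⟩ := hn e he
  obtain ⟨g', hg', hgl'⟩ := hn' e he
  refine ⟨fun q : M × M' => g q.1 * g' q.2, ⟨fun q => mul_pos (hg.1 q.1) (hg'.1 q.2), ?_⟩, ?_⟩
  · rintro ⟨x, y⟩
    have e2 : extChartAt (I.prod I') (x, y) (x, y) = (extChartAt I x x, extChartAt I' y y) := by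
      rw [extChartAt_prod]
      rfl
    have a1 := (logDensity_prod I I' hg.1 hg'.1 x y).eventually_nhds
    have a2 := (hg.2 x).prod_nhds (hg'.2 y)
    rw [← e2] at a2
    filter_upwards [a1, a2] with p hp1 hp2
    refine ContDiffAt.congr_of_eventuallyEq ?_ hp1
    exact (hp2.1.comp p contDiffAt_fst).add (hp2.2.comp p contDiffAt_snd)
  · rintro ⟨x, y⟩ ⟨v, w⟩
    have e2 : extChartAt (I.prod I') (x, y) (x, y) = (extChartAt I x x, extChartAt I' y y) := by
      rw [extChartAt_prod]
      rfl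
    rw [levi_congr (logDensity_prod I I' hg.1 hg'.1 x y), e2,
      levi_add (hg.2 x).self_of_nhds (hg'.2 y).self_of_nhds]
    have b1 := hgl x v
    have b2 := hgl' y w
    simp only
    linarith

end four

end Pool.Agent.TH698.BL
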