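import Pool.Agent.TH698.BL.Defs

set_option autoImplicit false

open scoped Manifold ContDiff Topology
open Set Filter

namespace Pool.Agent.TH698.BL

section one

variable {E : Type} [NormedAddCommGroup E] [NormedSpace ℂ E] [FiniteDimensional ℂ E]
  {H : Type} [TopologicalSpace H] (I : ModelWithCorners ℂ E H) [I.Boundaryless]
  {M : Type} [TopologicalSpace M] [ChartedSpace H M]

theorem jac_self (x : M) : jac I x x = ContinuousLinearMap.id ℂ E := by
  unfold jac
  have h : (extChartAt I x ∘ (extChartAt I x).symm) =ᶠ[𝓝 (extChartAt I x x)] id := by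
    filter_upwards [extChartAt_target_mem_nhds (I := I) x] with z hz
    exact (extChartAt I x).right_inv hz
  rw [h.fderiv_eq, fderiv_id]

theorem jdet_self (x : M) : jdet I x x = 1 := by
  unfold jdet
  rw [jac_self]
  exact LinearMap.det_id

theorem diffAt [IsManifold I ω M] {x y : M} (hy : y ∈ (extChartAt I x).source) :
    DifferentiableAt ℂ (extChartAt I y ∘ (extChartAt I x).symm) (extChartAt I x y) := by
  have h := contDiffWithinAt_ext_coord_change (I := I) (n := ω) y x (y := extChartAt I x y) (by
    rw [PartialEquiv.trans_source, PartialEquiv.symm_source]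
    refine ⟨(extChartAt I x).map_source hy, ?_⟩
    rw [mem_preimage, (extChartAt I x).left_inv hy]
    exact mem_extChartAt_source y)
  rw [ModelWithCorners.range_eq_univ] at h
  exact (h.contDiffAt univ_mem).differentiableAt (by simp)

end one

section two

variable {E : Type} [NormedAddCommGroup E] [NormedSpace ℂ E] [FiniteDimensional ℂ E]
  {H : Type} [TopologicalSpace H] (I : ModelWithCorners ℂ E H) [I.Boundaryless]
  {M : Type} [TopologicalSpace M] [ChartedSpace H M] [IsManifold I ω M]
  {E' : Type} [NormedAddCommGroup E'] [NormedSpace ℂ E'] [FiniteDimensional ℂ E']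
  {H' : Type} [TopologicalSpace H'] (I' : ModelWithCorners ℂ E' H') [I'.Boundaryless]
  {M' : Type} [TopologicalSpace M'] [ChartedSpace H' M'] [IsManifold I' ω M']

theorem jac_prod {x0 x : M} {y0 y : M'} (hx : x ∈ (extChartAt I x0).source)
    (hy : y ∈ (extChartAt I' y0).source) :
    jac (I.prod I') (x0, y0) (x, y) = (jac I x0 x).prodMap (jac I' y0 y) := by
  unfold jac
  have h1 := (diffAt I hx).hasFDerivAt
  have h2 := (diffAt I' hy).hasFDerivAt
  have h := HasFDerivAt.prodMap (p := (extChartAt I x0 x, extChartAt I' y0 y)) h1 h2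
  have e : (extChartAt (I.prod I') (x, y)) ∘ (extChartAt (I.prod I') (x0, y0)).symm
      = Prod.map (extChartAt I x ∘ (extChartAt I x0).symm)
        (extChartAt I' y ∘ (extChartAt I' y0).symm) := by
    rw [extChartAt_prod, extChartAt_prod]
    rfl
  have e2 : extChartAt (I.prod I') (x0, y0) (x, y) = (extChartAt I x0 x, extChartAt I' y0 y) := by
    rw [extChartAt_prod]
    rfl
  rw [e, e2]
  exact h.fderiv

theorem jdet_prod {x0 x : M} {y0 y : M'} (hx : x ∈ (extChartAt I x0).source)
    (hy : y ∈ (extChartAt I' y0).source) :
    jdet (I.prod I') (x0, y0) (x, y) = jdet I x0 x * jdet I' y0 y := by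
  unfold jdet
  rw [jac_prod I I' hx hy]
  exact LinearMap.det_prodMap _ _

/-- Restriction of a section to a slice. -/
theorem restrict_left {l : ℕ} {c : M × M' → ℂ} (hc : IsSection (I.prod I') l c) (y : M') :
    IsSection I l (fun x => c (x, y)) := by
  intro x
  have h := hc (x, y)
  have hg : DifferentiableOn ℂ (fun z : E => (z, extChartAt I' y y)) (extChartAt I x).target :=
    (differentiable_id.prodMk (differentiable_const _)).differentiableOn
  have hm : MapsTo (fun z : E => (z, extChartAt I' y y)) (extChartAt I x).target
      (extChartAt (I.prod I') (x, y)).target := by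
    intro z hz
    rw [extChartAt_prod]
    exact ⟨hz, mem_extChartAt_target y⟩
  refine (h.comp hg hm).congr ?_
  intro z hz
  have e : (extChartAt (I.prod I') (x, y)).symm (z, extChartAt I' y y)
      = ((extChartAt I x).symm z, y) := by
    rw [extChartAt_prod]
    change ((extChartAt I x).symm z, (extChartAt I' y).symm (extChartAt I' y y)) = _
    rw [(extChartAt I' y).left_inv (mem_extChartAt_source y)]
  simp only [Function.comp_apply, e]
  rw [jdet_prod I I' ((extChartAt I x).map_target hz) (mem_extChartAt_source y), jdet_self, mul_one]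

theorem base_prod {x : M} (hx : x ∈ Base I M) (y : M') : (x, y) ∈ Base (I.prod I') (M × M') := by
  intro l hl c hc
  exact hx l hl _ (restrict_left I I' hc y)

end two

end Pool.Agent.TH698.BL
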